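import Pool.Agent.Lib.MP_727445_co.Cert

namespace Pool.Agent.Results.MP_727445_co.ConjectureFalse

open Pool.Agent.Lib.MP_727445_co

/-- `g 3 k` is a genuine minimum for every `k ≥ 1`; the conjectured formula `g_3(k) = 3^(k-1)` holds
exactly for `k = 1, 2` and fails for every `k ≥ 3`; and `g_3(k) ≤ 7724230 * 3^(k-16)` for `k ≥ 16`,
where `7724230 / 3^16 < 0.1795`. -/
theorem result :
    (∀ k : ℕ, 1 ≤ k → (∃ b, Admissible 3 k b ∧ b k = g 3 k) ∧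
      ∀ b, Admissible 3 k b → g 3 k ≤ b k) ∧
    (∀ k : ℕ, 1 ≤ k → (g 3 k = 3 ^ (k - 1) ↔ k ≤ 2)) ∧
    (∀ k : ℕ, 3 ≤ k → g 3 k ≤ 8 * 3 ^ (k - 3) ∧ g 3 k < 3 ^ (k - 1)) ∧
    (∀ k : ℕ, 16 ≤ k → g 3 k ≤ 7724230 * 3 ^ (k - 16)) := by
  refine ⟨fun k hk => ⟨g_attained hk, fun b hb => g_le hb⟩, ?_,
    fun k hk => ⟨g_upper3 k hk, g_lt k hk⟩, g_upper16⟩
  intro k hk
  constructor
  · intro h
    by_contra hc
    have := g_lt k (by omega)
    omega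
  · intro h
    interval_cases k
    · rw [g_one]; norm_num
    · rw [g_two]; norm_num

end Pool.Agent.Results.MP_727445_co.ConjectureFalse
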