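import Pool.Agent.Lib.MP_727445_co.Lower
import Pool.Agent.Lib.MP_727445_co.Upper

namespace Pool.Agent.Results.MP_727445_co.LowerBound

open Pool.Agent.Lib.MP_727445_co

lemma TDL_of_TD {k : ℕ} {b : ℕ → ℕ} (h : TD k b) :
    TDL ((List.range k).map (fun i => b (i + 1))) := by
  intro e he hs i hi
  simp only [List.length_map, List.length_range] at he hs hi
  have hget : ∀ i < k, ((List.range k).map (fun i => b (i + 1))).getD i 0 = b (i + 1) := by
    intro i hi
    rw [List.getD_eq_getElem _ _ (by simpa using hi)]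
    simp
  have key := h (fun i => e (i - 1)) (by
    intro j hj
    rw [Finset.mem_Icc] at hj
    exact he (j - 1) (by omega)) (by
    rw [sum_Icc_range]
    simp only [Nat.add_sub_cancel]
    rw [← hs]
    apply Finset.sum_congr rfl
    intro j hj
    rw [Finset.mem_range] at hj
    rw [hget j hj])
  have := key (i + 1) (by rw [Finset.mem_Icc]; omega)
  simpa using this

/-- lower bounds: the central trinomial coefficient (coefficient of `X^k` in `(1 + X + X^2)^k`)
bounds `b k` from below for every admissible sequence, and `8 * ∑ b_i^2 ≥ 9^k - 1`. -/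
theorem result (k : ℕ) (hk : 1 ≤ k) :
    ((1 + Polynomial.X + Polynomial.X ^ 2 : Polynomial ℕ) ^ k).coeff k ≤ g 3 k ∧
    9 ^ k ≤ 8 * k * (g 3 k) ^ 2 + 1 ∧
    ∀ b, Admissible 3 k b →
      ((1 + Polynomial.X + Polynomial.X ^ 2 : Polynomial ℕ) ^ k).coeff k ≤ b k ∧
      9 ^ k ≤ 8 * (∑ i ∈ Finset.Icc 1 k, (b i) ^ 2) + 1 := by
  have main : ∀ b, Admissible 3 k b →
      ((1 + Polynomial.X + Polynomial.X ^ 2 : Polynomial ℕ) ^ k).coeff k ≤ b k ∧
      9 ^ k ≤ 8 * (∑ i ∈ Finset.Icc 1 k, (b i) ^ 2) + 1 := by
    intro b hb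
    have hb' := admissible_iff.mp hb
    obtain ⟨hpos, hmono, htd⟩ := hb'
    have htl := TDL_of_TD htd
    have hkk : k ∈ Finset.Icc 1 k := by rw [Finset.mem_Icc]; omega
    constructor
    · have := trinomial_le htl (M := b k) (by
        intro c hc
        rw [List.mem_map] at hc
        obtain ⟨i, hi, rfl⟩ := hc
        rw [List.mem_range] at hi
        rcases Nat.lt_or_ge (i + 1) k with h | h
        · exact (hmono (i + 1) (by rw [Finset.mem_Icc]; omega) k hkk h).le
        · have : i + 1 = k := by omega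
          rw [this]) (hpos k hkk)
      simpa using this
    · have := second_moment htl
      simp only [List.length_map, List.length_range, List.map_map, Function.comp_def] at this
      have e : ((List.range k).map (fun i => ((b (i + 1) : ℕ) : ℤ) ^ 2)).sum =
          ((∑ i ∈ Finset.Icc 1 k, (b i) ^ 2 : ℕ) : ℤ) := by
        push_cast
        rw [sum_Icc_range, ← Finset.sum_map_val]
        rfl
      rw [e] at this
      have h2 : (9 : ℤ) ^ k ≤ 8 * ((∑ i ∈ Finset.Icc 1 k, (b i) ^ 2 : ℕ) : ℤ) + 1 := by linarith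
      exact_mod_cast h2
  obtain ⟨b, hb, hbk⟩ := g_attained hk
  refine ⟨?_, ?_, main⟩
  · rw [← hbk]; exact (main b hb).1
  · rw [← hbk]
    refine (main b hb).2.trans ?_
    obtain ⟨hpos, hmono, htd⟩ := admissible_iff.mp hb
    have : ∑ i ∈ Finset.Icc 1 k, (b i) ^ 2 ≤ ∑ i ∈ Finset.Icc 1 k, (b k) ^ 2 := by
      apply Finset.sum_le_sum
      intro i hi
      apply Nat.pow_le_pow_left
      have hi' := hi
      rw [Finset.mem_Icc] at hi
      rcases Nat.lt_or_ge i k with h | h
      · exact (hmono i hi' k (by rw [Finset.mem_Icc]; omega) h).le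
      · have : i = k := by omega
        rw [this]
    rw [Finset.sum_const, Nat.card_Icc, Nat.add_sub_cancel, smul_eq_mul] at this
    nlinarith

end Pool.Agent.Results.MP_727445_co.LowerBound
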