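import Pool.Agent.Lib.MP_727445_co.ExactFive

/-!
Exact values of `g_3(k)` and all optimal sequences for `k = 3, 4, 5`.
-/

namespace Pool.Agent.Results.MP_727445_co.SmallValues

open Pool.Agent.Lib.MP_727445_co

/-- `g_3(3) = 8`, `g_3(4) = 22`, `g_3(5) = 60`, and all admissible sequences whose last term is
this minimum. -/
theorem result :
    (g 3 3 = 8 ∧ g 3 4 = 22 ∧ g 3 5 = 60) ∧
    (∀ b : ℕ → ℕ, (Admissible 3 3 b ∧ b 3 = 8) ↔ (b 1 = 5 ∧ b 2 = 7 ∧ b 3 = 8)) ∧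
    (∀ b : ℕ → ℕ, (Admissible 3 4 b ∧ b 4 = 22) ↔
      ((b 1 = 7 ∨ b 1 = 14) ∧ b 2 = 19 ∧ b 3 = 21 ∧ b 4 = 22)) ∧
    (∀ b : ℕ → ℕ, (Admissible 3 5 b ∧ b 5 = 60) ↔
      ((b 1 = 19 ∨ b 1 = 38) ∧ b 2 = 52 ∧ b 3 = 57 ∧ b 4 = 59 ∧ b 5 = 60)) :=
  ⟨⟨g_three, g_four, g_five⟩, opt_three, opt_four, opt_five⟩

end Pool.Agent.Results.MP_727445_co.SmallValues
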